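import Mathlib

/-!
# Quadratic residuosity of a Legendre-symbol determinant

For every prime `p ≡ 1 (mod 4)` and all signs `δ₁, δ₂` the integer `2 D_p(δ₁, δ₂)` is a quadratic
residue modulo `p`.

Proof: with `n = (p-1)/2` (even) Euler's criterion turns the matrix modulo `p` into
`V C Vᵀ` where `V = (j^(2a))` and `C` is the matrix of coefficients of a polynomial in `j²`, `k²`;
`C` is triangular with respect to the antidiagonal, on which its entries are
`δ₁ δ₂^b binom(n, b)`.  So the determinant is a square times `±binom(n, n/2)`, and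
`2 binom(n, n/2) (n/2)!² = 2 n! = (1 + n!)²` because `n!² = -1`.
-/

namespace Pool.Agent.Results.MP_f57d9c_nt.TwiceDetIsResidue

open Matrix Finset

/-- The determinant `D_p(δ₁, δ₂)`. -/
def D (p : ℕ) [Fact p.Prime] (δ₁ δ₂ : ℤ) : ℤ :=
  Matrix.det (Matrix.of fun j k : Fin ((p + 1) / 2) =>
    legendreSym p ((j : ℤ) + (k : ℤ)) + legendreSym p ((j : ℤ) - (k : ℤ)) +
      δ₁ * legendreSym p ((j : ℤ) ^ 2 + δ₂ * (k : ℤ) ^ 2))

section

variable {p : ℕ} [Fact p.Prime]

/-- `n!² = -1` for `p = 2 n + 1`, `n` even. -/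
lemma fact_sq {n : ℕ} (hp : p = 2 * n + 1) (hn : Even n) : ((n.factorial : ℕ) : ZMod p) ^ 2 = -1 := by
  have hw := ZMod.wilsons_lemma p
  have h1 : p - 1 = 2 * n := by omega
  rw [h1] at hw
  have h2 := Nat.factorial_mul_descFactorial (show n ≤ 2 * n by omega)
  rw [show 2 * n - n = n by omega] at h2
  have h3 : (((2 * n).descFactorial n : ℕ) : ZMod p) = (n.factorial : ZMod p) := by
    rw [Nat.descFactorial_eq_prod_range, ← Finset.prod_range_add_one_eq_factorial, Nat.cast_prod,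
      Nat.cast_prod]
    have h4 : ∀ i ∈ range n, (((2 * n - i : ℕ)) : ZMod p) = (-1) * ((i + 1 : ℕ) : ZMod p) := by
      intro i hi
      rw [mem_range] at hi
      have h5 : ((2 * n - i : ℕ) : ZMod p) + ((i + 1 : ℕ) : ZMod p) = 0 := by
        rw [← Nat.cast_add, show 2 * n - i + (i + 1) = p by omega, ZMod.natCast_self]
      linear_combination h5
    rw [prod_congr rfl h4, prod_mul_distrib, prod_const, card_range, hn.neg_one_pow, one_mul]
  rw [← h2, Nat.cast_mul, h3] at hw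
  rw [sq]; exact hw

lemma neg_one_isSquare {n : ℕ} (hp : p = 2 * n + 1) (hn : Even n) : IsSquare (-1 : ZMod p) :=
  ⟨_, by rw [← fact_sq hp hn, sq]⟩

lemma natCast_ne {m : ℕ} (h0 : 0 < m) (h1 : m < p) : ((m : ℕ) : ZMod p) ≠ 0 := by
  rw [Ne, ZMod.natCast_eq_zero_iff]
  exact Nat.not_dvd_of_pos_of_lt h0 h1

lemma choose_ne {n a : ℕ} (hn : n < p) (ha : a ≤ n) : ((n.choose a : ℕ) : ZMod p) ≠ 0 := by
  rw [Ne, ZMod.natCast_eq_zero_iff]
  intro h
  have h2 : p ∣ n.factorial := by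
    rw [← Nat.choose_mul_factorial_mul_factorial ha]
    exact Dvd.dvd.mul_right (Dvd.dvd.mul_right h _) _
  exact absurd ((Nat.Prime.dvd_factorial Fact.out).1 h2) (by omega)

/-- `2 binom(2m, m)` is a nonzero square. -/
lemma two_choose {m : ℕ} (hp : p = 4 * m + 1) :
    IsSquare (2 * (((2 * m).choose m : ℕ) : ZMod p)) := by
  have h1 := fact_sq (p := p) (n := 2 * m) (by omega) (even_two_mul m)
  have h2 := Nat.choose_mul_factorial_mul_factorial (show m ≤ 2 * m by omega)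
  rw [show 2 * m - m = m by omega] at h2
  have hm : ((m.factorial : ℕ) : ZMod p) ≠ 0 := by
    rw [Ne, ZMod.natCast_eq_zero_iff]
    intro h
    exact absurd ((Nat.Prime.dvd_factorial Fact.out).1 h) (by omega)
  refine ⟨(1 + ((2 * m).factorial : ℕ)) / (m.factorial : ZMod p), ?_⟩
  have h3 : (((2 * m).choose m : ℕ) : ZMod p) * (m.factorial : ZMod p) * (m.factorial : ZMod p)
      = ((2 * m).factorial : ℕ) := by
    rw [← h2]; push_cast; ring
  field_simp
  linear_combination 2 * h3 - h1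

/-- product of a full row of binomials -/
lemma prod_choose (m : ℕ) : ∏ a ∈ range (2 * m + 1), (2 * m).choose a
    = (2 * m).choose m * (∏ a ∈ range m, (2 * m).choose a) ^ 2 := by
  have h1 : ∏ a ∈ range (2 * m + 1), (2 * m).choose a
      = (∏ a ∈ range m, (2 * m).choose a) * ∏ a ∈ range (m + 1), (2 * m).choose (m + a) := by
    rw [show 2 * m + 1 = m + (m + 1) by ring, prod_range_add]
  have h2 : ∏ a ∈ range (m + 1), (2 * m).choose (m + a)
      = (2 * m).choose m * ∏ a ∈ range m, (2 * m).choose (m + (a + 1)) := by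
    rw [prod_range_succ']
    simp [mul_comm]
  have h3 : ∏ a ∈ range m, (2 * m).choose (m + (a + 1)) = ∏ a ∈ range m, (2 * m).choose a := by
    rw [← prod_range_reflect]
    refine prod_congr rfl (fun a ha => ?_)
    rw [mem_range] at ha
    rw [← Nat.choose_symm (show m + (m - 1 - a + 1) ≤ 2 * m by omega)]
    congr 1
    omega
  rw [h1, h2, h3]; ring

/-- The coefficient matrix, columns reversed. -/
def Cr (p n : ℕ) (d₁ d₂ : ZMod p) : Matrix (Fin (n + 1)) (Fin (n + 1)) (ZMod p) :=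
  Matrix.of fun a b =>
    (if (b : ℕ) = a + n / 2 then 2 * ((n.choose (2 * (n - b)) : ℕ) : ZMod p) else 0) +
      d₁ * (if b = a then d₂ ^ (n - (b : ℕ)) * ((n.choose (n - b) : ℕ) : ZMod p) else 0)

lemma det_Cr {n : ℕ} (hn : 2 ≤ n) (d₁ d₂ : ZMod p) :
    (Cr p n d₁ d₂).det = ∏ b : Fin (n + 1),
      d₁ * (d₂ ^ (n - (b : ℕ)) * ((n.choose (n - b) : ℕ) : ZMod p)) := by
  rw [Matrix.det_of_isUpperTriangular]
  · refine prod_congr rfl (fun b _ => ?_)
    have : ¬ ((b : ℕ) = b + n / 2) := by omega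
    rw [Cr, Matrix.of_apply, if_neg this, if_pos rfl, zero_add]
  · intro a b hab
    simp only [id] at hab
    have h1 : ¬ ((b : ℕ) = a + n / 2) := by
      have : (b : ℕ) < a := hab
      omega
    have h2 : ¬ (b = a) := hab.ne
    simp [Cr, h1, h2]

lemma even_odd (f : ℕ → ZMod p) (m : ℕ) : ∑ i ∈ range (2 * m + 1), f i
    = ∑ a ∈ range (m + 1), f (2 * a) + ∑ a ∈ range m, f (2 * a + 1) := by
  induction m with
  | zero => simp
  | succ m ih =>
    rw [show 2 * (m + 1) + 1 = (2 * m + 1) + 1 + 1 by ring, sum_range_succ, sum_range_succ, ih,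
      sum_range_succ (fun a => f (2 * a)) (m + 1), sum_range_succ (fun a => f (2 * a + 1)) m,
      show 2 * m + 1 + 1 = 2 * (m + 1) by ring]
    ring

/-- The matrix modulo `p` is a product. -/
lemma factorization {n : ℕ} (hn : Even n) (d₁ d₂ : ZMod p) :
    (Matrix.of fun j k : Fin (n + 1) =>
      (((j : ℕ) : ZMod p) + ((k : ℕ) : ZMod p)) ^ n + (((j : ℕ) : ZMod p) - ((k : ℕ) : ZMod p)) ^ n
        + d₁ * (((j : ℕ) : ZMod p) ^ 2 + d₂ * ((k : ℕ) : ZMod p) ^ 2) ^ n)
      = Matrix.vandermonde (fun j : Fin (n + 1) => ((j : ℕ) : ZMod p) ^ 2) * Cr p n d₁ d₂ *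
        (Matrix.of fun (b k : Fin (n + 1)) => (((k : ℕ) : ZMod p) ^ 2) ^ (n - (b : ℕ))) := by
  obtain ⟨m, hm⟩ := hn
  ext j k
  rw [Matrix.mul_assoc, Matrix.mul_apply]
  simp only [Matrix.of_apply, Matrix.vandermonde_apply, Matrix.mul_apply, Cr]
  set x := ((j : ℕ) : ZMod p)
  set y := ((k : ℕ) : ZMod p)
  -- split the right side
  have hsplit : ∀ a : Fin (n + 1), ∑ b : Fin (n + 1),
      ((if (b : ℕ) = a + n / 2 then 2 * ((n.choose (2 * (n - b)) : ℕ) : ZMod p) else 0) +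
        d₁ * (if b = a then d₂ ^ (n - (b : ℕ)) * ((n.choose (n - b) : ℕ) : ZMod p) else 0)) *
        (y ^ 2) ^ (n - (b : ℕ))
      = (if (a : ℕ) ≤ m then 2 * ((n.choose (2 * (m - a)) : ℕ) : ZMod p) * (y ^ 2) ^ (m - (a : ℕ))
          else 0) +
        d₁ * (d₂ ^ (n - (a : ℕ)) * ((n.choose (n - a) : ℕ) : ZMod p)) * (y ^ 2) ^ (n - (a : ℕ)) := by
    intro a
    simp only [add_mul, sum_add_distrib]
    congr 1
    · by_cases ha : (a : ℕ) ≤ m
      · have hb : (a : ℕ) + n / 2 < n + 1 := by omega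
        rw [Finset.sum_eq_single (⟨a + n / 2, hb⟩ : Fin (n + 1))]
        · simp only [if_true, ha]
          have e1 : n - (a + n / 2) = m - (a : ℕ) := by omega
          rw [e1]
        · intro b _ hb'
          have : ¬ ((b : ℕ) = a + n / 2) := fun h => hb' (Fin.ext h)
          simp [this]
        · intro h; exact absurd (mem_univ _) h
      · rw [if_neg ha]
        refine sum_eq_zero (fun b _ => ?_)
        have : ¬ ((b : ℕ) = a + n / 2) := by have := b.2; omega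
        simp [this]
    · rw [Finset.sum_eq_single a]
      · simp
      · intro b _ hb'
        simp [hb']
      · intro h; exact absurd (mem_univ _) h
  simp only [hsplit, mul_add, sum_add_distrib]
  congr 1
  · -- the part `(x + y)^n + (x - y)^n`
    rw [Fin.sum_univ_eq_sum_range (fun a => (x ^ 2) ^ a * (if a ≤ m then
      2 * ((n.choose (2 * (m - a)) : ℕ) : ZMod p) * (y ^ 2) ^ (m - a) else 0)) (n + 1)]
    have h1 : ∑ a ∈ range (n + 1), (x ^ 2) ^ a * (if a ≤ m then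
        2 * ((n.choose (2 * (m - a)) : ℕ) : ZMod p) * (y ^ 2) ^ (m - a) else 0)
        = ∑ a ∈ range (m + 1), (x ^ 2) ^ a *
          (2 * ((n.choose (2 * (m - a)) : ℕ) : ZMod p) * (y ^ 2) ^ (m - a)) := by
      rw [show n + 1 = (m + 1) + m by omega, sum_range_add]
      have h2 : ∑ a ∈ range m, (x ^ 2) ^ (m + 1 + a) * (if m + 1 + a ≤ m then
        2 * ((n.choose (2 * (m - (m + 1 + a))) : ℕ) : ZMod p) * (y ^ 2) ^ (m - (m + 1 + a))
          else 0) = 0 := by
        refine sum_eq_zero (fun a _ => ?_)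
        rw [if_neg (by omega), mul_zero]
      rw [h2, add_zero]
      refine sum_congr rfl (fun a ha => ?_)
      rw [mem_range] at ha
      rw [if_pos (by omega)]
    rw [h1, sub_eq_add_neg, add_pow, add_pow, ← sum_add_distrib]
    -- even/odd splitting
    rw [show n + 1 = 2 * m + 1 by omega, even_odd]
    have h4 : ∑ a ∈ range m, (x ^ (2 * a + 1) * y ^ (n - (2 * a + 1)) * (n.choose (2 * a + 1) : ℕ)
        + x ^ (2 * a + 1) * (-y) ^ (n - (2 * a + 1)) * (n.choose (2 * a + 1) : ℕ)) = 0 := by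
      refine sum_eq_zero (fun a ha => ?_)
      rw [mem_range] at ha
      have : Odd (n - (2 * a + 1)) := ⟨m - a - 1, by omega⟩
      rw [this.neg_pow]; ring
    rw [h4, add_zero]
    refine sum_congr rfl (fun a ha => ?_)
    rw [mem_range] at ha
    have he : Even (n - 2 * a) := ⟨m - a, by omega⟩
    rw [he.neg_pow, ← pow_mul, ← pow_mul, show n - 2 * a = 2 * (m - a) by omega,
      ← Nat.choose_symm (show 2 * a ≤ n by omega), show n - 2 * a = 2 * (m - a) by omega]
    ring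
  · -- the part `(x^2 + d₂ y^2)^n`
    rw [add_pow, mul_sum, ← Fin.sum_univ_eq_sum_range (fun a => d₁ * ((x ^ 2) ^ a *
      (d₂ * y ^ 2) ^ (n - a) * (n.choose a : ℕ))) (n + 1)]
    refine sum_congr rfl (fun a _ => ?_)
    rw [mul_pow, Nat.choose_symm (show (a : ℕ) ≤ n by omega)]
    ring

lemma isSquare_of_sign {d : ℤ} (hd : d = 1 ∨ d = -1) (h : IsSquare (-1 : ZMod p)) :
    IsSquare (d : ZMod p) ∧ (d : ZMod p) ≠ 0 := by
  rcases hd with rfl | rfl
  · simp
  · refine ⟨by simpa using h, by simp⟩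

theorem main {n : ℕ} (hp : p = 2 * n + 1) (hn : Even n) (hn2 : 2 ≤ n) {δ₁ δ₂ : ℤ}
    (h₁ : δ₁ = 1 ∨ δ₁ = -1) (h₂ : δ₂ = 1 ∨ δ₂ = -1) :
    IsSquare (2 * (D p δ₁ δ₂ : ZMod p)) ∧ 2 * (D p δ₁ δ₂ : ZMod p) ≠ 0 := by
  have hm1 := neg_one_isSquare hp hn
  obtain ⟨hs1, hz1⟩ := isSquare_of_sign (p := p) h₁ hm1
  obtain ⟨hs2, hz2⟩ := isSquare_of_sign (p := p) h₂ hm1
  have hpn : (p + 1) / 2 = n + 1 := by omega
  -- the determinant modulo `p`
  have hD : (D p δ₁ δ₂ : ZMod p) = (Matrix.of fun j k : Fin (n + 1) =>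
      (((j : ℕ) : ZMod p) + ((k : ℕ) : ZMod p)) ^ n + (((j : ℕ) : ZMod p) - ((k : ℕ) : ZMod p)) ^ n
        + (δ₁ : ZMod p) * (((j : ℕ) : ZMod p) ^ 2
          + (δ₂ : ZMod p) * ((k : ℕ) : ZMod p) ^ 2) ^ n).det := by
    unfold D
    rw [hpn]
    change (Int.castRingHom (ZMod p)) (Matrix.det _) = _
    rw [RingHom.map_det]
    congr 1
    ext j k
    have e : p / 2 = n := by omega
    simp only [RingHom.mapMatrix_apply, Matrix.map_apply, Matrix.of_apply, Int.coe_castRingHom,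
      Int.cast_add, Int.cast_mul, legendreSym.eq_pow, e]
    push_cast
    ring
  rw [factorization hn, Matrix.det_mul, Matrix.det_mul, det_Cr hn2] at hD
  set V := Matrix.vandermonde (fun j : Fin (n + 1) => ((j : ℕ) : ZMod p) ^ 2) with hV
  have hW : (Matrix.of fun (b k : Fin (n + 1)) => (((k : ℕ) : ZMod p) ^ 2) ^ (n - (b : ℕ))).det
      = ((Equiv.Perm.sign (Fin.revPerm (n := n + 1)) : ℤ) : ZMod p) * V.det := by
    rw [← Matrix.det_transpose V, ← Matrix.det_permute]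
    congr 1
    ext b k
    simp [hV, Matrix.vandermonde_apply, Fin.val_rev]
  rw [hW] at hD
  have hV0 : V.det ≠ 0 := by
    rw [hV, Matrix.det_vandermonde_ne_zero_iff]
    intro j k hjk
    simp only at hjk
    have h3 : (((j : ℕ) : ZMod p) - ((k : ℕ) : ZMod p)) * (((j : ℕ) : ZMod p) + ((k : ℕ) : ZMod p))
        = 0 := by linear_combination hjk
    rcases mul_eq_zero.1 h3 with h4 | h4
    · have h5 : (((j : ℕ) : ℕ) : ZMod p) = ((k : ℕ) : ℕ) := sub_eq_zero.1 h4
      rw [ZMod.natCast_eq_natCast_iff'] at h5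
      rw [Nat.mod_eq_of_lt (by omega), Nat.mod_eq_of_lt (by omega)] at h5
      exact Fin.ext h5
    · rw [← Nat.cast_add, ZMod.natCast_eq_zero_iff] at h4
      rcases Nat.eq_zero_or_pos ((j : ℕ) + k) with h5 | h5
      · apply Fin.ext; omega
      · exact absurd (Nat.le_of_dvd h5 h4) (by omega)
  obtain ⟨m, hm⟩ := id hn
  have hsgn : IsSquare (((Equiv.Perm.sign (Fin.revPerm (n := n + 1)) : ℤ) : ZMod p)) ∧
      (((Equiv.Perm.sign (Fin.revPerm (n := n + 1)) : ℤ) : ZMod p)) ≠ 0 := by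
    apply isSquare_of_sign _ hm1
    rcases Int.units_eq_one_or (Equiv.Perm.sign (Fin.revPerm (n := n + 1))) with h | h <;>
      rw [h] <;> simp
  have hprod : ∏ b : Fin (n + 1), ((δ₁ : ZMod p) * ((δ₂ : ZMod p) ^ (n - (b : ℕ)) *
      ((n.choose (n - b) : ℕ) : ZMod p)))
      = (∏ b : Fin (n + 1), ((δ₁ : ZMod p) * (δ₂ : ZMod p) ^ (n - (b : ℕ)))) *
        ((((2 * m).choose m : ℕ) : ZMod p) *
          ((∏ a ∈ range m, (2 * m).choose a : ℕ) : ZMod p) ^ 2) := by
    have h5 : ((((2 * m).choose m : ℕ) : ZMod p) *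
          ((∏ a ∈ range m, (2 * m).choose a : ℕ) : ZMod p) ^ 2)
          = ((∏ a ∈ range (2 * m + 1), (2 * m).choose a : ℕ) : ZMod p) := by
      rw [prod_choose]; push_cast; ring
    rw [h5, show 2 * m = n by omega, Nat.cast_prod,
      ← Fin.prod_univ_eq_prod_range (fun a => ((n.choose a : ℕ) : ZMod p)) (n + 1),
      ← prod_mul_distrib]
    refine prod_congr rfl (fun b _ => ?_)
    rw [Nat.choose_symm (show (b : ℕ) ≤ n by omega)]
    ring
  rw [hprod] at hD
  have hsq : 2 * (D p δ₁ δ₂ : ZMod p) =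
      ((Equiv.Perm.sign (Fin.revPerm (n := n + 1)) : ℤ) : ZMod p) *
      (∏ b : Fin (n + 1), ((δ₁ : ZMod p) * (δ₂ : ZMod p) ^ (n - (b : ℕ)))) *
      (2 * (((2 * m).choose m : ℕ) : ZMod p)) *
      (((∏ a ∈ range m, (2 * m).choose a : ℕ) : ZMod p) * V.det) ^ 2 := by
    rw [hD]; ring
  have hA : IsSquare (∏ b : Fin (n + 1), ((δ₁ : ZMod p) * (δ₂ : ZMod p) ^ (n - (b : ℕ)))) := by
    apply Finset.isSquare_prod
    intro b _
    exact hs1.mul (hs2.pow _)
  refine ⟨?_, ?_⟩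
  · rw [hsq]
    exact ((hsgn.1.mul hA).mul (two_choose (by omega))).mul (IsSquare.sq _)
  · rw [hsq]
    have h2 : (2 : ZMod p) ≠ 0 := by
      have := natCast_ne (p := p) (m := 2) (by norm_num) (by omega)
      simpa using this
    have h3 : ((∏ a ∈ range m, (2 * m).choose a : ℕ) : ZMod p) ≠ 0 := by
      rw [Nat.cast_prod, Finset.prod_ne_zero_iff]
      intro a ha
      rw [mem_range] at ha
      exact choose_ne (by omega) (by omega)
    have h4 : (((2 * m).choose m : ℕ) : ZMod p) ≠ 0 := choose_ne (by omega) (by omega)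
    have h5 : (∏ b : Fin (n + 1), ((δ₁ : ZMod p) * (δ₂ : ZMod p) ^ (n - (b : ℕ)))) ≠ 0 := by
      rw [Finset.prod_ne_zero_iff]
      intro b _
      exact mul_ne_zero hz1 (pow_ne_zero _ hz2)
    exact mul_ne_zero (mul_ne_zero (mul_ne_zero hsgn.2 h5) (mul_ne_zero h2 h4))
      (pow_ne_zero _ (mul_ne_zero h3 hV0))

end

/-- For every prime `p ≡ 1 (mod 4)` and all signs `δ₁, δ₂`, the integer `2 D_p(δ₁, δ₂)` is a
quadratic residue modulo `p`. -/
theorem result (p : ℕ) [Fact p.Prime] (hp : p % 4 = 1) (δ₁ δ₂ : ℤ) (h₁ : δ₁ = 1 ∨ δ₁ = -1)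
    (h₂ : δ₂ = 1 ∨ δ₂ = -1) :
    ¬ (p : ℤ) ∣ 2 * D p δ₁ δ₂ ∧ ∃ y : ℤ, 2 * D p δ₁ δ₂ ≡ y ^ 2 [ZMOD p] := by
  have hp5 : 5 ≤ p := by
    have h1 := (Fact.out : p.Prime).two_le
    have h2 : p ≠ 1 := by omega
    omega
  obtain ⟨h3, h4⟩ := main (p := p) (n := p / 2) (by omega) ⟨p / 4, by omega⟩ (by omega) h₁ h₂
  refine ⟨?_, ?_⟩
  · intro h
    apply h4
    have := (ZMod.intCast_zmod_eq_zero_iff_dvd _ p).2 h
    push_cast at this
    exact this
  · obtain ⟨r, hr⟩ := h3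
    refine ⟨(r.val : ℤ), ?_⟩
    rw [← ZMod.intCast_eq_intCast_iff]
    push_cast
    rw [ZMod.natCast_zmod_val, hr, sq]

end Pool.Agent.Results.MP_f57d9c_nt.TwiceDetIsResidue
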